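import Pool.Agent.Q22.GX.Chk

/-!
# The tests, carried out in the kernel
-/

set_option autoImplicit false
set_option maxRecDepth 100000

namespace Pool.Agent.Q22.GX

lemma A11 : checkA 11 3 = true := by decide +kernel

lemma B11 : checkB 11 0 = true := by decide +kernel

lemma A23 : checkA 23 3 = true := by decide +kernel

lemma B23 : checkB 23 17 = true := by decide +kernel

lemma A29 : checkA 29 4 = true := by decide +kernel

lemma B29 : checkB 29 0 = true := by decide +kernel

lemma A41 : checkA 41 4 = true := by decide +kernel

lemma B41 : checkB 41 0 = true := by decide +kernel

lemma A47 : checkA 47 4 = true := by decide +kernel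

lemma B47 : checkB 47 13 = true := by decide +kernel

lemma A59 : checkA 59 4 = true := by decide +kernel

lemma B59 : checkB 59 44 = true := by decide +kernel

lemma A83 : checkA 83 5 = true := by decide +kernel

lemma B83 : checkB 83 0 = true := by decide +kernel

lemma A101 : checkA 101 5 = true := by decide +kernel

lemma B101 : checkB 101 68 = true := by decide +kernel

lemma A113 : checkA 113 5 = true := by decide +kernel

lemma B113 : checkB 113 55 = true := by decide +kernel

lemma A131 : checkA 131 5 = true := by decide +kernel

lemma B131 : checkB 131 22 = true := by decide +kernel

lemma A137 : checkA 137 5 = true := by decide +kernel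

lemma B137 : checkB 137 0 = true := by decide +kernel

end Pool.Agent.Q22.GX
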