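import Pool.Agent.Q22.GX.Chk

/-!
# The tests, carried out in the kernel
-/

set_option autoImplicit false
set_option maxRecDepth 100000

namespace Pool.Agent.Q22.GX

lemma A149 : checkA 149 5 = true := by decide +kernel

lemma B149 : checkB 149 130 = true := by decide +kernel

lemma A167 : checkA 167 5 = true := by decide +kernel

lemma B167 : checkB 167 0 = true := by decide +kernel

lemma A173 : checkA 173 5 = true := by decide +kernel

lemma B173 : checkB 173 0 = true := by decide +kernel

lemma A191 : checkA 191 5 = true := by decide +kernel

lemma B191 : checkB 191 0 = true := by decide +kernel

end Pool.Agent.Q22.GX
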