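import Pool.Agent.Q22.GX.Chk

/-!
# The tests, carried out in the kernel
-/

set_option autoImplicit false
set_option maxRecDepth 100000

namespace Pool.Agent.Q22.GX

lemma A227 : checkA 227 5 = true := by decide +kernel

lemma B227 : checkB 227 0 = true := by decide +kernel

lemma A239 : checkA 239 5 = true := by decide +kernel

lemma B239 : checkB 239 0 = true := by decide +kernel

end Pool.Agent.Q22.GX
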