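import Pool.Agent.Q22.GX.Comp

/-!
# The tests
-/

set_option autoImplicit false

namespace Pool.Agent.Q22.GX

open Finset

/-- three values which are not the coefficients of a vanishing sum over the cube roots of unity -/
def bad3 (p c0 c1 c2 : ℕ) : Bool :=
  force (Nat.mod c0 p) fun c0 => force (Nat.mod c1 p) fun c1 => force (Nat.mod c2 p) fun c2 =>
    not (Nat.beq (Nat.mod (Nat.add (Nat.add (Nat.mul c0 c0) (Nat.mul c1 c1)) (Nat.mul c2 c2)) p)
      (Nat.mod (Nat.add (Nat.add (Nat.mul c0 c1) (Nat.mul c1 c2)) (Nat.mul c0 c2)) p))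

/-- three lists -/
abbrev Tri : Type := List ℕ × List ℕ × List ℕ

/-- the tests for the conductors `3^K`, `K ≥ 2`; `(N, A, B)` with `N = 3^K` and the lists for the
arguments `(b + 3^(K-1) t) / 3^K`, `b = 1` and `b = 4` -/
def testA (p m : ℕ) (er : List ℕ) : List (ℕ × Tri × Tri) → Bool
  | [] => true
  | q :: Gs => (Nat.ble (Nat.mul 9 m) q.1 || (bad3 p (dot er q.2.1.1) (dot er q.2.1.2.1) (dot er q.2.1.2.2) ||
      (Nat.ble 27 q.1 && bad3 p (dot er q.2.2.1) (dot er q.2.2.2.1) (dot er q.2.2.2.2)))) &&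
      testA p m er Gs

/-- the loop over `m`; `er = [ε_{m-1}, …, ε_0]` -/
def loop (p : ℕ) (F2 : List ℕ) (T : ℕ → ℕ → List ℕ → Bool) : ℕ → ℕ → List ℕ → Bool
  | 0, _, _ => true
  | s + 1, m, er => force (Nat.mod (Nat.sub p (Nat.mod (dot er F2) p)) p) fun e =>
      T m e er && loop p F2 T s (Nat.succ m) (e :: er)

/-- the inverse of `x` modulo `p` -/
def inv (p x : ℕ) : ℕ := Nat.mod (Nat.pow x (Nat.sub p 2)) p

/-- the argument `(b + M t) / N` and its inverse -/
def mkX (p b M N t : ℕ) (f : ℕ → ℕ → Bool) : Bool :=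
  force (Nat.mod (Nat.mul (Nat.add b (Nat.mul M t)) (inv p (Nat.mod N p))) p) fun x =>
    Nat.beq (Nat.mod (Nat.mul x N) p) (Nat.mod (Nat.add b (Nat.mul M t)) p) && force (inv p x) fun y => f x y

/-- the list for `x`: the zero list for `x = 0` -/
def mkL (p x y : ℕ) (cont : List ℕ → Bool) : Bool :=
  if Nat.beq x 0 then cont (List.replicate (p - 1) 0) else
    (Nat.beq (Nat.mod (Nat.mul x y) p) 1 && mkG p y cont (p - 1) (p - 1) [])

/-- the lists for the arguments `(b + M t) / N`, `t = 0, 1, 2` -/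
def mkT (p b M N : ℕ) (cont : Tri → Bool) : Bool :=
  mkX p b M N 0 fun x0 y0 => mkL p x0 y0 fun G0 =>
  mkX p b M N 1 fun x1 y1 => mkL p x1 y1 fun G1 =>
  mkX p b M N 2 fun x2 y2 => mkL p x2 y2 fun G2 => cont (G0, G1, G2)

/-- the levels `3^2, 3^3, …` below `9 (p - 1)` -/
def mkAll (p : ℕ) (cont : List (ℕ × Tri × Tri) → Bool) : ℕ → ℕ → List (ℕ × Tri × Tri) → Bool
  | 0, M, acc => Nat.ble (Nat.mul 9 (p - 1)) (3 * M) && cont acc
  | s + 1, M, acc => force (3 * M) fun N =>
      mkT p 1 M N fun A => mkT p 4 M N fun B => mkAll p cont s N ((N, A, B) :: acc)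

/-- the test for `K ≥ 2` -/
def checkA (p s : ℕ) : Bool :=
  mkL p 1 1 fun F => mkAll p (fun Gs => loop p F.tail (fun m _ er => testA p m er Gs) (p - 1) 1 [1]) s 3 []

/-- the test for `K ≤ 1` -/
def testB (p m e : ℕ) (er G : List ℕ) : Bool :=
  (Nat.beq (Nat.mod m 2) 1 || Nat.beq (Nat.succ m) p || not (Nat.beq (Nat.mod e p) 0)) &&
    (Nat.beq (Nat.mod m 2) 0 || Nat.beq m 1 || not (Nat.beq (Nat.mod (dot er G) p) 0))

/-- the test for `K ≤ 1` except for `m = m₀` -/
def checkB (p m₀ : ℕ) : Bool :=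
  mkL p 1 1 fun F => force (inv p 3) fun x => Nat.beq (Nat.mod (Nat.mul x 3) p) 1 && mkL p x 3 fun G =>
    loop p F.tail (fun m e er => Nat.beq m m₀ || testB p m e er G) (p - 1) 1 [1]

example : checkA 11 3 = true := by decide +kernel
example : checkB 11 0 = true := by decide +kernel
example : checkB 23 17 = true := by decide +kernel
end Pool.Agent.Q22.GX
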