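import Pool.Agent.Y18.GX.Small

/-!
# Bernoulli polynomials modulo `p`, computed with lists

All functions are written for the reduction in the kernel: `force` evaluates a number before it is used.
-/

set_option autoImplicit false

namespace Pool.Agent.Q22.GX

open Finset

/-- evaluate `n`, then continue with it -/
def force (n : ℕ) (f : ℕ → Bool) : Bool := Nat.rec (f 0) (fun k _ => f (Nat.succ k)) n

lemma force_eq (n : ℕ) (f : ℕ → Bool) : force n f = f n := by
  cases n <;> rfl

/-- the scalar product -/
def dot : List ℕ → List ℕ → ℕ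
  | a :: l, b :: m => Nat.add (Nat.mul a b) (dot l m)
  | _, _ => 0

/-- the list `[g_1, g_2, …, g_n]`, where `g_{k-1} = k y g_k`, starting with `g = g_n`, followed by the test
`g_0 = 1` -/
def mkG (p y : ℕ) (cont : List ℕ → Bool) : ℕ → ℕ → List ℕ → Bool
  | 0, g, acc => Nat.beq g 1 && cont acc
  | k + 1, g, acc => force (Nat.mod (Nat.mul (Nat.mul (Nat.succ k) y) g) p) fun g' => mkG p y cont k g' (g :: acc)

section
variable {k : Type*} [Field k]

/-- the elements of the list are `h 0, h 1, …` in `k` -/
def Rep : List ℕ → (ℕ → k) → Prop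
  | [], _ => True
  | a :: l, h => (a : k) = h 0 ∧ Rep l fun i => h (i + 1)

lemma cast_mod (p : ℕ) [CharP k p] (n : ℕ) : ((Nat.mod n p : ℕ) : k) = n :=
  (CharP.cast_eq_mod k p n).symm

lemma dot_eq : ∀ (l m : List ℕ) (h g : ℕ → k), Rep l h → Rep m g → l.length ≤ m.length →
    ((dot l m : ℕ) : k) = ∑ i ∈ range l.length, h i * g i
  | [], m, h, g, _, _, _ => by simp [dot]
  | a :: l, [], h, g, _, _, h3 => by simp at h3
  | a :: l, b :: m, h, g, h1, h2, h3 => by
    rw [dot]
    have h4 := dot_eq l m _ _ h1.2 h2.2 (by simpa using h3)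
    rw [List.length_cons, Finset.sum_range_succ']
    show ((a * b + dot l m : ℕ) : k) = _
    push_cast
    rw [h4, h1.1, h2.1, add_comm]

/-- the numbers `x^i / i!` -/
noncomputable def gg (x : k) (i : ℕ) : k := x ^ i / (i.factorial : k)

lemma mkG_sound (p y : ℕ) [CharP k p] (x : k) (hxy : x * y = 1) (cont : List ℕ → Bool) :
    ∀ (n g : ℕ) (acc : List ℕ), n < p → (∀ c : k, (g : k) = c * gg x n → Rep acc fun i => c * gg x (n + 1 + i)) →
    mkG p y cont n g acc = true →
    ∃ L : List ℕ, L.length = n + acc.length ∧ Rep L (fun i => gg x (i + 1)) ∧ cont L = true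
  | 0, g, acc, _, hr, h => by
    rw [mkG, Bool.and_eq_true] at h
    refine ⟨acc, by simp, ?_, h.2⟩
    have h1 : g = 1 := Nat.eq_of_beq_eq_true h.1
    have := hr 1 (by rw [h1]; simp [gg])
    simpa [add_comm] using this
  | n + 1, g, acc, hn, hr, h => by
    rw [mkG, force_eq] at h
    obtain ⟨L, h1, h2, h3⟩ := mkG_sound p y x hxy cont n _ (g :: acc) (by omega) (by
      intro c hc
      rw [cast_mod] at hc
      have hc' : ((n + 1 : ℕ) : k) * y * g = c * gg x n := by
        rw [← hc]
        show _ = (((n + 1) * y * g : ℕ) : k)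
        push_cast
        ring
      have hnk : ((n + 1 : ℕ) : k) ≠ 0 := fun h0 => by
        have := Nat.le_of_dvd (by omega) ((CharP.cast_eq_zero_iff k p (n + 1)).1 h0)
        omega
      have hnf : ((n.factorial : ℕ) : k) ≠ 0 ∨ ((n.factorial : ℕ) : k) = 0 := (em _).symm
      have hg : (g : k) = c * gg x (n + 1) := by
        have h5 : x * (((n + 1 : ℕ) : k) * y * g) = ((n + 1 : ℕ) : k) * g := by
          linear_combination ((n + 1 : ℕ) : k) * g * hxy
        rw [hc'] at h5
        have h6 : x * (c * gg x n) = ((n + 1 : ℕ) : k) * (c * gg x (n + 1)) := by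
          unfold gg
          rw [Nat.factorial_succ, Nat.cast_mul, pow_succ]
          field_simp
        exact (mul_left_cancel₀ hnk (h6.symm.trans h5)).symm
      refine ⟨hg, ?_⟩
      have h7 := hr c hg
      have h8 : (fun i => c * gg x (n + 1 + 1 + i)) = fun i => c * gg x (n + 1 + (i + 1)) := by
        funext i
        congr 2
        ring
      rw [h8] at h7
      exact h7) h
    exact ⟨L, by rw [h1, List.length_cons]; ring, h2, h3⟩

end

end Pool.Agent.Q22.GX
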