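import Pool.Agent.Q22.GX.Chk

/-!
# The Bernoulli numbers modulo `p`
-/

set_option autoImplicit false

namespace Pool.Agent.Q22.GX

open Finset Polynomial Pool.Agent.Y18.GX

/-- `(i + 1)! B_i` -/
noncomputable def w (i : ℕ) : ℤ := ((((i + 1).factorial : ℕ) : ℚ) * _root_.bernoulli i).num

lemma w_spec (i : ℕ) : (w i : ℚ) = (((i + 1).factorial : ℕ) : ℚ) * _root_.bernoulli i := by
  obtain ⟨z, hz⟩ := bern_int i
  unfold w
  rw [hz]
  simp

/-- `n! / (j + 1)!` -/
def qt (n j : ℕ) : ℕ := n.factorial / (j + 1).factorial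

lemma qt_mul {n j : ℕ} (h : j < n) : qt n j * (j + 1).factorial = n.factorial :=
  Nat.div_mul_cancel (Nat.factorial_dvd_factorial (by omega))

section
variable {k : Type*} [Field k]

/-- `B_i / i!` in characteristic `p > i + 1` -/
noncomputable def eps (i : ℕ) : k := (w i : k) / (((i + 1).factorial : ℕ) * (i.factorial : ℕ) : k)

variable {p : ℕ} [Fact p.Prime] [CharP k p]

lemma fact_ne (i : ℕ) (h : i < p) : ((i.factorial : ℕ) : k) ≠ 0 := fun h0 => by
  have h1 := (CharP.cast_eq_zero_iff k p _).1 h0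
  have := ((Fact.out : p.Prime).dvd_factorial).1 h1
  omega

lemma int_ne {z : ℤ} (h : (z : k) ≠ 0) : IsCoprime (p : ℤ) z := by
  have hp := (Fact.out : p.Prime)
  rw [Prime.coprime_iff_not_dvd (Nat.prime_iff_prime_int.1 hp)]
  intro h1
  exact h ((CharP.intCast_eq_zero_iff k p z).2 h1)

include p in
lemma eps_rec (n : ℕ) (hn : 1 ≤ n) (hnp : n < p) :
    ∑ j ∈ range n, (eps j : k) * gg 1 (n - j) = if n = 1 then 1 else 0 := by
  have h1 := _root_.sum_bernoulli n
  -- the identity in integers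
  have h2 : ∑ j ∈ range n, ((n.choose j : ℕ) : ℤ) * ((qt n j : ℕ) : ℤ) * w j =
      (n.factorial : ℕ) * (if n = 1 then 1 else 0) := by
    have h3 : ((∑ j ∈ range n, ((n.choose j : ℕ) : ℤ) * ((qt n j : ℕ) : ℤ) * w j : ℤ) : ℚ) =
        (((n.factorial : ℕ) * (if n = 1 then 1 else 0) : ℤ) : ℚ) := by
      push_cast
      rw [← h1, Finset.mul_sum]
      refine Finset.sum_congr rfl fun j hj => ?_
      have hj' := mem_range.1 hj
      have h4 : ((qt n j : ℕ) : ℚ) * ((j + 1).factorial : ℕ) = (n.factorial : ℕ) := by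
        exact_mod_cast qt_mul hj'
      rw [w_spec]
      linear_combination (n.choose j : ℚ) * _root_.bernoulli j * h4
    exact_mod_cast h3
  have h3 := congrArg (fun z : ℤ => (z : k)) h2
  simp only [Int.cast_sum, Int.cast_mul, Int.cast_natCast] at h3
  have hn0 : ((n.factorial : ℕ) : k) ≠ 0 := fact_ne (p := p) n hnp
  have h4 : ∑ j ∈ range n, ((n.choose j : ℕ) : k) * ((qt n j : ℕ) : k) * (w j : k) =
      (n.factorial : k) ^ 2 * ∑ j ∈ range n, (eps j : k) * gg 1 (n - j) := by
    rw [Finset.mul_sum]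
    refine Finset.sum_congr rfl fun j hj => ?_
    have hj' := mem_range.1 hj
    have h5 : qt n j * (j + 1).factorial = n.factorial := qt_mul hj'
    have h6 : n.choose j * j.factorial * (n - j).factorial = n.factorial :=
      Nat.choose_mul_factorial_mul_factorial (by omega)
    have h5' : ((qt n j : ℕ) : k) * ((j + 1).factorial : ℕ) = (n.factorial : ℕ) := by
      exact_mod_cast congrArg (Nat.cast (R := k)) h5
    have h6' : ((n.choose j : ℕ) : k) * (j.factorial : ℕ) * ((n - j).factorial : ℕ) = (n.factorial : ℕ) := by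
      exact_mod_cast congrArg (Nat.cast (R := k)) h6
    have e1 : (((j + 1).factorial : ℕ) : k) ≠ 0 := fact_ne (p := p) _ (by omega)
    have e2 : ((j.factorial : ℕ) : k) ≠ 0 := fact_ne (p := p) _ (by omega)
    have e3 : (((n - j).factorial : ℕ) : k) ≠ 0 := fact_ne (p := p) _ (by omega)
    unfold eps gg
    rw [one_pow]
    have h7 : ((n.factorial : ℕ) : k) ^ 2 = (((qt n j : ℕ) : k) * ((j + 1).factorial : ℕ)) *
        (((n.choose j : ℕ) : k) * (j.factorial : ℕ) * ((n - j).factorial : ℕ)) := by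
      rw [h5', h6', sq]
    rw [h7]
    field_simp
  rw [h4] at h3
  have h5 : (n.factorial : k) ^ 2 * ∑ j ∈ range n, (eps j : k) * gg 1 (n - j) =
      (n.factorial : k) ^ 2 * (if n = 1 then 1 else 0) := by
    rw [h3]
    rcases eq_or_ne n 1 with h | h
    · subst h
      simp
    · simp [h]
  exact mul_left_cancel₀ (pow_ne_zero 2 hn0) h5

include p in
lemma aeval_FF (m : ℕ) (hmp : m < p) (x : k) :
    aeval x (FF m) = (m.factorial : k) ^ 2 * ∑ i ∈ range m, (eps i : k) * gg x (m - i) := by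
  rw [FF, map_sum, Finset.mul_sum]
  refine Finset.sum_congr rfl fun i hi => ?_
  have hi' := mem_range.1 hi
  rw [aeval_monomial]
  have h1 : zc m i * ((i + 1).factorial : ℕ) = ((m.factorial : ℕ) : ℤ) * ((m.choose i : ℕ) : ℤ) * w i := by
    have h2 : ((zc m i * ((i + 1).factorial : ℕ) : ℤ) : ℚ) =
        ((((m.factorial : ℕ) : ℤ) * ((m.choose i : ℕ) : ℤ) * w i : ℤ) : ℚ) := by
      push_cast
      rw [zc_spec hi', w_spec]
      ring
    exact_mod_cast h2
  have h1' : (zc m i : k) * ((i + 1).factorial : ℕ) = ((m.factorial : ℕ) : k) * ((m.choose i : ℕ) : k) * (w i : k) := by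
    exact_mod_cast congrArg (fun z : ℤ => (z : k)) h1
  have h6 : m.choose i * i.factorial * (m - i).factorial = m.factorial :=
    Nat.choose_mul_factorial_mul_factorial (by omega)
  have h6' : ((m.choose i : ℕ) : k) * (i.factorial : ℕ) * ((m - i).factorial : ℕ) = (m.factorial : ℕ) := by
    exact_mod_cast congrArg (Nat.cast (R := k)) h6
  have e1 : (((i + 1).factorial : ℕ) : k) ≠ 0 := fact_ne (p := p) _ (by omega)
  have e2 : ((i.factorial : ℕ) : k) ≠ 0 := fact_ne (p := p) _ (by omega)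
  have e3 : (((m - i).factorial : ℕ) : k) ≠ 0 := fact_ne (p := p) _ (by omega)
  unfold eps gg
  have h7 : (zc m i : k) = ((m.factorial : ℕ) : k) * ((m.choose i : ℕ) : k) * (w i : k) / ((i + 1).factorial : ℕ) := by
    rw [eq_div_iff e1, h1']
  show (Int.castRingHom k) (zc m i) * x ^ (m - i) = _
  rw [eq_intCast, h7, sq]
  nth_rw 3 [← h6']
  field_simp

end

end Pool.Agent.Q22.GX
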