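import Pool.Agent.Q22.GX.Main

/-!
# The values for the conductors `1` and `3`
-/

set_option autoImplicit false

namespace Pool.Agent.Q22.GX

open Finset Polynomial Pool.Agent.Y18.GX

lemma unit_rat {p : ℕ} (a b : ℤ) (ha : a ≠ 0) (hb : b ≠ 0) (hpa : IsCoprime (p : ℤ) a) (hpb : IsCoprime (p : ℤ) b)
    {z : ℂ} (hz : z = a / b) : IsUnitAt p z := by
  have ha' : (a : ℂ) ≠ 0 := by exact_mod_cast ha
  have hb' : (b : ℂ) ≠ 0 := by exact_mod_cast hb
  refine ⟨by rw [hz]; exact div_ne_zero ha' hb', a * b, hpa.mul_right hpb, ?_, ?_⟩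
  · have : ((a * b : ℤ) : ℂ) * z = ((a ^ 2 : ℤ) : ℂ) := by
      rw [hz]
      push_cast
      field_simp
    rw [this]
    exact isIntegral_algebraMap (x := a ^ 2)
  · have : ((a * b : ℤ) : ℂ) * z⁻¹ = ((b ^ 2 : ℤ) : ℂ) := by
      rw [hz]
      push_cast
      field_simp
    rw [this]
    exact isIntegral_algebraMap (x := b ^ 2)

lemma ne_zero_of_coprime {p : ℕ} (hp : p.Prime) {a : ℤ} (h : IsCoprime (p : ℤ) a) : a ≠ 0 := by
  rintro rfl
  rw [isCoprime_zero_right, Int.isUnit_iff] at h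
  have := hp.two_le
  omega

lemma coprime_fact {p : ℕ} (hp : p.Prime) {m : ℕ} (h : m < p) : IsCoprime (p : ℤ) (m.factorial : ℤ) := by
  rw [Nat.isCoprime_iff_coprime, Nat.Prime.coprime_iff_not_dvd hp]
  intro h1
  have := (hp.dvd_factorial).1 h1
  omega

lemma coprime_nat {p : ℕ} (hp : p.Prime) {m : ℕ} (h0 : 0 < m) (h : m < p) : IsCoprime (p : ℤ) (m : ℤ) := by
  rw [Nat.isCoprime_iff_coprime, Nat.Prime.coprime_iff_not_dvd hp]
  exact Nat.not_dvd_of_pos_of_lt h0 h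

/-- `3^m FF_m(1/3)` -/
noncomputable def vv (m : ℕ) : ℤ := ∑ i ∈ range m, zc m i * 3 ^ i

lemma vv_eq {k : Type*} [Field k] (h3 : (3 : k) ≠ 0) (m : ℕ) : (vv m : k) = 3 ^ m * aeval ((1 : k) / 3) (FF m) := by
  rw [vv, FF, map_sum, Finset.mul_sum, Int.cast_sum]
  refine Finset.sum_congr rfl fun i hi => ?_
  have hi' := mem_range.1 hi
  rw [aeval_monomial]
  show _ = 3 ^ m * ((Int.castRingHom k) (zc m i) * (1 / 3) ^ (m - i))
  rw [eq_intCast]
  push_cast
  have h1 : (3 : k) ^ m = 3 ^ i * 3 ^ (m - i) := by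
    rw [← pow_add]
    congr 1
    omega
  rw [h1, one_div, inv_pow]
  have h2 : (3 : k) ^ (m - i) ≠ 0 := pow_ne_zero _ h3
  field_simp

/-- what the test says -/
lemma checkB_sound {p m₀ : ℕ} (hp : p.Prime) (h5 : 5 ≤ p) (hchk : checkB p m₀ = true) {m : ℕ} (hm1 : 1 ≤ m)
    (hmp : m < p) (hm₀ : m ≠ m₀) :
    (m % 2 = 0 → m + 1 ≠ p → IsCoprime (p : ℤ) (w m)) ∧ (m % 2 = 1 → m ≠ 1 → IsCoprime (p : ℤ) (vv m)) := by
  have : Fact p.Prime := ⟨hp⟩
  have h3k : ((3 : ℕ) : ZMod p) ≠ 0 := by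
    intro h0
    have h1 := (CharP.cast_eq_zero_iff (ZMod p) p _).1 h0
    have := Nat.le_of_dvd (by norm_num) h1
    omega
  unfold checkB at hchk
  obtain ⟨F, hFl, hF, hchk⟩ := mkL_sound (k := ZMod p) (p := p) 1 1 (by omega) _ hchk
  rw [force_eq, Bool.and_eq_true] at hchk
  obtain ⟨hx, hchk⟩ := hchk
  set x := inv p 3 with hxd
  have hx3 : (x : ZMod p) * 3 = 1 := by
    have h1 := congrArg (Nat.cast (R := ZMod p)) (Nat.eq_of_beq_eq_true hx)
    rw [cast_mod] at h1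
    have h3 : ∀ a b : ℕ, ((Nat.mul a b : ℕ) : ZMod p) = (a : ZMod p) * b := fun a b => Nat.cast_mul a b
    rw [h3] at h1
    exact_mod_cast h1
  have hx3' : (x : ZMod p) = 1 / 3 := by
    rw [eq_div_iff (by exact_mod_cast h3k), hx3]
  obtain ⟨G, hGl, hG, hchk⟩ := mkL_sound (k := ZMod p) (p := p) x 3 (by omega) _ hchk
  rw [Nat.cast_one] at hF
  rw [hx3'] at hG
  obtain ⟨e, er, herl, her, he, hT⟩ := loop_sound (k := ZMod p) (p := p) F.tail _ hF.tail
    (by rw [List.length_tail, hFl]; omega)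
    (p - 1) 1 [1] le_rfl rfl ⟨by
      have h0 : w 0 = 1 := by
        have := w_spec 0
        rw [_root_.bernoulli_zero] at this
        norm_num at this
        exact_mod_cast this
      simp [eps, h0], trivial⟩ (by omega) hchk m hm1 (by omega) hmp
  simp only [testB, Bool.and_eq_true, Bool.or_eq_true] at hT
  replace hT := hT.resolve_left fun h => hm₀ (Nat.eq_of_beq_eq_true h)
  obtain ⟨hT1, hT2⟩ := hT
  constructor
  · intro hm hmp1
    have h1 : e % p ≠ 0 := by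
      rcases hT1 with (h | h) | h
      · have := Nat.eq_of_beq_eq_true h
        have h' : m % 2 = 1 := this
        omega
      · have := Nat.eq_of_beq_eq_true h
        have h' : m + 1 = p := this
        exact absurd h' hmp1
      · have h2 := congrArg Bool.not h
        rw [Bool.not_not] at h2
        exact Nat.ne_of_beq_eq_false h2
    have h2 : (e : ZMod p) ≠ 0 := by
      intro h0
      exact h1 (Nat.mod_eq_zero_of_dvd ((CharP.cast_eq_zero_iff (ZMod p) p e).1 h0))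
    rw [he (by omega)] at h2
    refine int_ne (k := ZMod p) (p := p) ?_
    intro h0
    apply h2
    unfold eps
    rw [h0, zero_div]
  · intro hm hm1'
    have h1 : dot er G % p ≠ 0 := by
      rcases hT2 with (h | h) | h
      · have := Nat.eq_of_beq_eq_true h
        have h' : m % 2 = 0 := this
        omega
      · exact absurd (Nat.eq_of_beq_eq_true h) hm1'
      · have h2 := congrArg Bool.not h
        rw [Bool.not_not] at h2
        exact Nat.ne_of_beq_eq_false h2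
    have h2 : ((dot er G : ℕ) : ZMod p) ≠ 0 := by
      intro h0
      exact h1 (Nat.mod_eq_zero_of_dvd ((CharP.cast_eq_zero_iff (ZMod p) p _).1 h0))
    refine int_ne (k := ZMod p) (p := p) ?_
    have h3' : (3 : ZMod p) ≠ 0 := by exact_mod_cast h3k
    rw [vv_eq h3', dot_FF (p := p) m hmp er G _ herl her hG hGl]
    exact mul_ne_zero (pow_ne_zero _ h3') (mul_ne_zero (pow_ne_zero _ (fact_ne (p := p) m hmp)) h2)

/-- `(1 - p^(m-1)) B_m / m`, `m` even -/
lemma unit_zero {p m₀ : ℕ} (hp : p.Prime) (h5 : 5 ≤ p) (hchk : checkB p m₀ = true) {m : ℕ} (hm : m % 2 = 0)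
    (hm1 : 1 ≤ m) (hmp : m + 1 < p) (hm₀ : m ≠ m₀) :
    IsUnitAt p ((1 - (p : ℂ) ^ (m - 1)) * ((_root_.bernoulli m : ℚ) : ℂ) / m) := by
  have h1 := (checkB_sound hp h5 hchk hm1 (by omega) hm₀).1 hm (by omega)
  have h2 : IsCoprime (p : ℤ) (1 - (p : ℤ) ^ (m - 1)) := by
    refine ⟨(p : ℤ) ^ (m - 2), 1, ?_⟩
    have : (p : ℤ) ^ (m - 1) = (p : ℤ) ^ (m - 2) * p := by
      rw [← pow_succ]
      congr 1
      omega
    rw [this]
    ring
  have h3 : IsCoprime (p : ℤ) (((m + 1).factorial : ℕ) * m : ℤ) :=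
    (coprime_fact hp hmp).mul_right (coprime_nat hp (by omega) (by omega))
  have h4 := h2.mul_right h1
  refine unit_rat _ _ (ne_zero_of_coprime hp h4) (ne_zero_of_coprime hp h3) h4 h3 ?_
  have h5' := w_spec m
  have h6 : ((w m : ℤ) : ℂ) = (((m + 1).factorial : ℕ) : ℂ) * ((_root_.bernoulli m : ℚ) : ℂ) := by
    exact_mod_cast congrArg (fun q : ℚ => (q : ℂ)) h5'
  have h7 : (((m + 1).factorial : ℕ) : ℂ) ≠ 0 := by exact_mod_cast (Nat.factorial_pos _).ne'
  have h8 : (m : ℂ) ≠ 0 := by exact_mod_cast (by omega : m ≠ 0)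
  push_cast
  rw [h6]
  field_simp

/-- `(1 + p^(m-1)) 3^(m-1) (B_m(1/3) - B_m(2/3)) / m`, `m` odd -/
lemma unit_three {p m₀ : ℕ} (hp : p.Prime) (h5 : 5 ≤ p) (hchk : checkB p m₀ = true) {m : ℕ} (hm : m % 2 = 1)
    (hm1 : 3 ≤ m) (hmp : m < p) (hm₀ : m ≠ m₀) :
    IsUnitAt p ((1 + (p : ℂ) ^ (m - 1)) * ((3 : ℂ) ^ (m - 1) *
      ((((Polynomial.bernoulli m).eval ((1 : ℚ) / 3) : ℚ) : ℂ) - (((Polynomial.bernoulli m).eval ((2 : ℚ) / 3) : ℚ) : ℂ))) / m) := by
  have h1 := (checkB_sound hp h5 hchk (by omega) hmp hm₀).2 hm (by omega)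
  have h2 : IsCoprime (p : ℤ) (1 + (p : ℤ) ^ (m - 1)) := by
    refine ⟨-(p : ℤ) ^ (m - 2), 1, ?_⟩
    have : (p : ℤ) ^ (m - 1) = (p : ℤ) ^ (m - 2) * p := by
      rw [← pow_succ]
      congr 1
      omega
    rw [this]
    ring
  have h3 : IsCoprime (p : ℤ) (3 * (m.factorial : ℕ) * m : ℤ) :=
    ((coprime_nat hp (m := 3) (by norm_num) (by omega)).mul_right (coprime_fact hp hmp)).mul_right
      (coprime_nat hp (by omega) (by omega))
  have h22 : IsCoprime (p : ℤ) (2 : ℤ) := coprime_nat hp (m := 2) (by norm_num) (by omega)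
  have h4 := (h2.mul_right h22).mul_right h1
  refine unit_rat _ _ (ne_zero_of_coprime hp h4) (ne_zero_of_coprime hp h3) h4 h3 ?_
  have hf : ((m.factorial : ℕ) : ℂ) ≠ 0 := by exact_mod_cast (Nat.factorial_pos _).ne'
  have e1 := FF_eval m (1 / 3)
  have e2 := FF_eval m (2 / 3)
  have e3 := FF_aeval_refl (k := ℂ) m (1 / 3)
  have e4 := FF_eval m 1
  have c1 : (((1 / 3 : ℚ) : ℚ) : ℂ) = 1 / 3 := by push_cast; rfl
  have c2 : (((2 / 3 : ℚ) : ℚ) : ℂ) = 2 / 3 := by push_cast; rfl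
  have c3 : (1 : ℂ) - 1 / 3 = 2 / 3 := by norm_num
  have hodd : (-1 : ℂ) ^ m = -1 := Odd.neg_one_pow (Nat.odd_iff.2 hm)
  rw [c1] at e1
  rw [c2] at e2
  rw [c3, hodd] at e3
  rw [Rat.cast_one, Polynomial.bernoulli_eval_one, ← bernoulli_eq_bernoulli'_of_ne_one (by omega), sub_self,
    mul_zero] at e4
  have e5 : (((FF m).eval 1 : ℤ) : ℂ) = 0 := by
    rw [← e4, aeval_def]
    have := Polynomial.hom_eval₂ (FF m) (Int.castRingHom ℤ) (Int.castRingHom ℂ) 1
    simp only [Polynomial.eval₂_at_one, eval₂_at_one] at *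
    simp
  rw [e5, add_zero, e2, e1] at e3
  have e6 : ((((Polynomial.bernoulli m).eval ((1 : ℚ) / 3) : ℚ) : ℂ) - (((Polynomial.bernoulli m).eval ((2 : ℚ) / 3) : ℚ) : ℂ)) =
      2 * (aeval ((1 : ℂ) / 3) (FF m)) / (m.factorial : ℕ) := by
    rw [e1]
    field_simp
    have h9 : ((m.factorial : ℕ) : ℂ) * ((((Polynomial.bernoulli m).eval ((2 : ℚ) / 3) : ℚ) : ℂ) - ((_root_.bernoulli m : ℚ) : ℂ)) =
      ((m.factorial : ℕ) : ℂ) * (-((((Polynomial.bernoulli m).eval ((1 : ℚ) / 3) : ℚ) : ℂ) - ((_root_.bernoulli m : ℚ) : ℂ))) := by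
      linear_combination e3
    have h10 := mul_left_cancel₀ hf h9
    linear_combination -h10
  rw [e6]
  have e7 := vv_eq (k := ℂ) (by norm_num) m
  push_cast
  rw [e7]
  have h8 : (m : ℂ) ≠ 0 := by exact_mod_cast (by omega : m ≠ 0)
  have h9 : (3 : ℂ) ^ m = 3 ^ (m - 1) * 3 := by
    rw [← pow_succ]
    congr 1
    omega
  rw [h9]
  field_simp

end Pool.Agent.Q22.GX
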