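import Pool.Agent.Q22.GX.Sound

/-!
# The values for the conductors `3^K`
-/

set_option autoImplicit false

namespace Pool.Agent.Q22.GX

open Finset Polynomial Pool.Agent.Y18.GX

/-- the sum over the class of `b` for a small conductor -/
lemma class_core {p : ℕ} (hp : p.Prime) (h5 : 5 ≤ p) (h9 : p % 9 = 2 ∨ p % 9 = 5)
    {K m : ℕ} (hK : 2 ≤ K) (hmp : m < p)
    {k : Type} [Field k] [CharP k p] (χ₁ : MulChar (ZMod 1) k) (χ₂ : MulChar (ZMod (3 ^ K)) k)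
    (hprim : χ₂ ((1 + 3 ^ (K - 1) : ℕ) : ZMod (3 ^ K)) ≠ 1) (hpar : χ₁ (-1) * χ₂ (-1) = (-1) ^ m)
    (hS : ∑ a ∈ range (1 * 3 ^ K), χ₁ (a : ZMod 1) * χ₂ (a : ZMod (3 ^ K)) *
      Polynomial.aeval ((a : k) / (1 * 3 ^ K : ℕ)) (FF m) = 0)
    (b : ℕ) (hb : b < 3 ^ (K - 1)) (hb1 : b % 3 = 1) (er : List ℕ) (herl : er.length = m)
    (her : Rep er (fun i => (eps (m - 1 - i) : k))) (q : Tri) (hq : Good3 k p K b q)
    (hbad : bad3 p (dot er q.1) (dot er q.2.1) (dot er q.2.2) = true) : False := by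
  have : Fact p.Prime := ⟨hp⟩
  have hχ : ∀ x : ZMod 1, χ₁ x = 1 := fun x => by rw [Subsingleton.elim x 1, map_one]
  have h3k : ((3 : ℕ) : k) ≠ 0 := by
    intro h0
    have h1 := (CharP.cast_eq_zero_iff k p _).1 h0
    have := Nat.le_of_dvd (by norm_num) h1
    omega
  -- `p ^ 2 - 1 = 3 u`
  have hq9 : p ^ 2 % 9 = 4 ∨ p ^ 2 % 9 = 7 := by
    rcases h9 with h | h
    · left
      rw [Nat.pow_mod, h]
    · right
      rw [Nat.pow_mod, h]
  obtain ⟨u, hu⟩ : ∃ u, p ^ 2 - 1 = 3 ^ 1 * u := ⟨(p ^ 2 - 1) / 3, by omega⟩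
  have huc : u.Coprime 3 := by
    rw [Nat.coprime_comm, Nat.Prime.coprime_iff_not_dvd Nat.prime_three]
    omega
  have key := class_zero (p := p) (ℓ := 3) (n := 1) (K := K) (N₁ := 1) (g := 2) (m := m) (u := u) χ₁ χ₂
    (by omega) (Or.inl ⟨rfl, by omega⟩) le_rfl (by omega) (by norm_num) hu huc
    (fun a => by rw [hχ, one_pow]) hprim (by norm_num) (by norm_num) (by simp) h3k (FF m) _
    (fun x => FF_aeval_refl m x) hpar hS b hb (by simpa using hb1)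
  have hξ3 := psi_M_pow (n := 1) χ₂ (by omega)
  rw [pow_one] at hξ3
  set ξ := χ₂ ((1 + 3 ^ (K - 1) : ℕ) : ZMod (3 ^ K)) with hξ
  have hξ2 : ξ ^ 2 + ξ + 1 = 0 := by
    have h1 : (ξ - 1) * (ξ ^ 2 + ξ + 1) = 0 := by linear_combination hξ3
    rcases mul_eq_zero.1 h1 with h2 | h2
    · exact absurd (sub_eq_zero.1 h2) hprim
    · exact h2
  simp only [hχ, one_mul, pow_one, Finset.sum_range_succ, Finset.sum_range_zero, zero_add, pow_zero,
    mul_one] at key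
  obtain ⟨⟨hl0, hG0⟩, ⟨hl1, hG1⟩, ⟨hl2, hG2⟩⟩ := hq
  have hb3 := bad3_sound (k := k) (p := p) _ _ _ hbad
  have d0 := dot_FF (p := p) m hmp er q.1 _ herl her hG0 hl0
  have d1 := dot_FF (p := p) m hmp er q.2.1 _ herl her hG1 hl1
  have d2 := dot_FF (p := p) m hmp er q.2.2 _ herl her hG2 hl2
  simp only [mul_one] at d1
  rw [d0, d1, d2] at key
  have hmf : ((m.factorial : ℕ) : k) ≠ 0 := fact_ne (p := p) m hmp
  have hkey : ((dot er q.1 : ℕ) : k) + ξ * (dot er q.2.1 : ℕ) + ξ ^ 2 * (dot er q.2.2 : ℕ) = 0 := by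
    have h1 : ((m.factorial : ℕ) : k) ^ 2 * (((dot er q.1 : ℕ) : k) + ξ * (dot er q.2.1 : ℕ) +
        ξ ^ 2 * (dot er q.2.2 : ℕ)) = 0 := by linear_combination key
    exact (mul_eq_zero.1 h1).resolve_left (pow_ne_zero 2 hmf)
  apply hb3
  set a := ((dot er q.1 : ℕ) : k)
  set b := ((dot er q.2.1 : ℕ) : k)
  set c := ((dot er q.2.2 : ℕ) : k)
  -- the norm of `a + b ξ + c ξ ^ 2`
  have hn : (a + ξ * b + ξ ^ 2 * c) * (a + ξ ^ 2 * b + ξ * c) = a ^ 2 + b ^ 2 + c ^ 2 - (a * b + b * c + a * c) := by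
    have h4 : ξ ^ 4 = ξ := by linear_combination ξ * hξ3
    linear_combination (b ^ 2 + c ^ 2) * hξ3 + b * c * h4 + (a * b + a * c + b * c) * hξ2
  rw [← hn, hkey, zero_mul]

/-- the sums for the small conductors -/
lemma small_core {p s : ℕ} (hp : p.Prime) (h5 : 5 ≤ p) (h9 : p % 9 = 2 ∨ p % 9 = 5) (hchk : checkA p s = true)
    {K m : ℕ} (hK : 2 ≤ K) (hm1 : 1 ≤ m) (hmp : m < p) (hsz : 3 ^ K < 9 * m)
    {k : Type} [Field k] [CharP k p] (χ₁ : MulChar (ZMod 1) k) (χ₂ : MulChar (ZMod (3 ^ K)) k)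
    (hprim : χ₂ ((1 + 3 ^ (K - 1) : ℕ) : ZMod (3 ^ K)) ≠ 1) (hpar : χ₁ (-1) * χ₂ (-1) = (-1) ^ m) :
    ∑ a ∈ range (1 * 3 ^ K), χ₁ (a : ZMod 1) * χ₂ (a : ZMod (3 ^ K)) *
      Polynomial.aeval ((a : k) / (1 * 3 ^ K : ℕ)) (FF m) ≠ 0 := by
  intro hS
  have : Fact p.Prime := ⟨hp⟩
  unfold checkA at hchk
  obtain ⟨F, hFl, hF, hchk⟩ := mkL_sound (k := k) (p := p) 1 1 (by omega) _ hchk
  obtain ⟨j', Gs, hj', hGs, hchk⟩ := mkAll_sound (k := k) (p := p) h5 _ s 1 [] le_rfl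
    (fun K h1 h2 => by omega) (by rw [pow_one]; exact hchk)
  rw [Nat.cast_one] at hF
  obtain ⟨e, er, herl, her, -, hT⟩ := loop_sound (k := k) (p := p) F.tail _ hF.tail (by rw [List.length_tail, hFl]; omega)
    (p - 1) 1 [1] le_rfl rfl ⟨by
      have h0 : w 0 = 1 := by
        have := w_spec 0
        rw [_root_.bernoulli_zero] at this
        norm_num at this
        exact_mod_cast this
      simp [eps, h0], trivial⟩ (by omega) hchk m hm1 (by omega) hmp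
  have hKj : K ≤ j' := by
    by_contra hcon
    have h1 : 3 ^ (j' + 1) ≤ 3 ^ K := Nat.pow_le_pow_right (by norm_num) (by omega)
    have h2 : 9 * m ≤ 9 * (p - 1) := Nat.mul_le_mul_left _ (by omega)
    omega
  obtain ⟨q, hq, hq1, hgA, hgB⟩ := hGs K hK hKj
  have hbad := testA_sound (p := p) m er Gs hT q hq
  rw [hq1] at hbad
  rcases hbad with hbad | hbad | ⟨h27, hbad⟩
  · omega
  · exact class_core hp h5 h9 hK hmp χ₁ χ₂ hprim hpar hS 1 (Nat.one_lt_pow (by omega) (by norm_num)) rfl er herl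
      her q.2.1 hgA hbad
  · have hK3 : 3 ≤ K := by
      by_contra hcon
      have : K = 2 := by omega
      subst this
      norm_num at h27
    refine class_core hp h5 h9 hK hmp χ₁ χ₂ hprim hpar hS 4 ?_ rfl er herl her q.2.2 hgB hbad
    calc 4 < 3 ^ 2 := by norm_num
      _ ≤ 3 ^ (K - 1) := Nat.pow_le_pow_right (by norm_num) (by omega)

/-- `(1 - ψ(p) p^(m-1)) B_{m,ψ} / m` for `ψ` modulo `3^K`, `K ≥ 2` -/
theorem unit_big {p s : ℕ} (hp : p.Prime) (h5 : 5 ≤ p) (h9 : p % 9 = 2 ∨ p % 9 = 5) (hchk : checkA p s = true)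
    {K m : ℕ} (hK : 2 ≤ K) (hm1 : 1 ≤ m) (hmp : m < p) (ψ : DirichletCharacter ℂ (1 * 3 ^ K))
    (hc : 3 ^ K ∣ ψ.conductor) (hpar : ψ (-1) = (-1) ^ m) :
    IsUnitAt p ((1 - ψ (p : ZMod (1 * 3 ^ K)) * (p : ℂ) ^ (m - 1)) * (((1 * 3 ^ K : ℕ) : ℂ) ^ (m - 1) *
      ∑ a ∈ range (1 * 3 ^ K), ψ (a : ZMod (1 * 3 ^ K)) *
        (((Polynomial.bernoulli m).eval ((a : ℚ) / (1 * 3 ^ K : ℕ)) : ℚ) : ℂ)) / m) := by
  have hcop : Nat.Coprime 1 (3 ^ K) := Nat.coprime_one_left _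
  have hprim := snd_prim hcop Nat.prime_three hK one_ne_zero ψ hc
  have hN1 : 1 * 3 ^ K ≠ 1 := by
    rw [one_mul]
    exact (Nat.one_lt_pow (by omega) (by norm_num)).ne'
  have hψ1 : ψ ≠ 1 := by
    have : NeZero (1 * 3 ^ K) := ⟨by positivity⟩
    intro h
    rw [h, DirichletCharacter.conductor_one] at hc
    have := Nat.dvd_one.1 hc
    exact (Nat.one_lt_pow (by omega) (by norm_num : 1 < 3)).ne' this
  have hfst : ∀ a, fst hcop ψ a = 1 := fun a => by rw [Subsingleton.elim (α := ZMod 1) a 1, map_one]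
  have hsum : ∑ a ∈ range (1 * 3 ^ K), fst hcop ψ (a : ZMod 1) * snd hcop ψ (a : ZMod (3 ^ K)) = 0 := by
    rw [← sum_char (by positivity) ψ hψ1]
    exact Finset.sum_congr rfl fun a _ => (dec_nat hcop ψ a).symm
  have hq9 : p ^ 2 % 9 = 4 ∨ p ^ 2 % 9 = 7 := by
    rcases h9 with h | h
    · left
      rw [Nat.pow_mod, h]
    · right
      rw [Nat.pow_mod, h]
  obtain ⟨u, hu⟩ : ∃ u, p ^ 2 - 1 = 3 ^ 1 * u := ⟨(p ^ 2 - 1) / 3, by omega⟩
  have huc : u.Coprime 3 := by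
    rw [Nat.coprime_comm, Nat.Prime.coprime_iff_not_dvd Nat.prime_three]
    omega
  have hA : Adm 3 (p ^ 2) := Or.inl ⟨rfl, by omega⟩
  have key := unit_gen hp (g := 2) (m := m) (fst hcop ψ) (snd hcop ψ) Nat.prime_three hK
    (fun a => by rw [hfst, one_pow]) hprim (fun h => by have := Nat.le_of_dvd (by norm_num) h; omega) (by omega)
    (by rw [← dec_neg, hpar]) hm1 hmp
    (fun k _ _ χ₁ χ₂ h1 h2 h3 => by
      have : Fact p.Prime := ⟨hp⟩
      have h3k : ((3 : ℕ) : k) ≠ 0 := by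
        intro h0
        have h1 := (CharP.cast_eq_zero_iff k p _).1 h0
        have := Nat.le_of_dvd (by norm_num) h1
        omega
      constructor
      · rcases Nat.lt_or_ge (3 ^ K) (9 * m) with hsz | hsz
        · exact small_core hp h5 h9 hchk hK hm1 hmp hsz χ₁ χ₂ h2 h3
        · refine core χ₁ χ₂ (by omega) hA le_rfl (by omega) (by norm_num) hu huc h1 h2 (by norm_num) (by norm_num)
            (by simp) h3k (FF m) _ (fun x => FF_aeval_refl m x) h3 (FF_natDegree m) ?_ hm1 hmp (by omega)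
          rw [FF_coeff m hm1]
          have := fact_ne (k := k) (p := p) m hmp
          push_cast
          exact this
      · intro hm
        have h9K : 3 ^ 2 ≤ 3 ^ K := Nat.pow_le_pow_right (by norm_num) hK
        exact euler χ₁ χ₂ hA le_rfl (by omega) (by norm_num) hu huc h1 h2 (by omega) (by omega)) hsum
  simp only [← dec_nat] at key
  exact key

end Pool.Agent.Q22.GX
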