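import Pool.Agent.Q22.GX.Eps

/-!
# Soundness of the tests
-/

set_option autoImplicit false
set_option linter.unusedSectionVars false

namespace Pool.Agent.Q22.GX

open Finset Polynomial Pool.Agent.Y18.GX

section
variable {k : Type*} [Field k] {p : ℕ} [Fact p.Prime] [CharP k p]

lemma Rep.congr {l : List ℕ} {h g : ℕ → k} (hl : Rep l h) (hhg : ∀ i, h i = g i) : Rep l g := by
  have : h = g := funext hhg
  rwa [← this]

lemma Rep.tail {l : List ℕ} {h : ℕ → k} (hl : Rep l h) : Rep l.tail (fun i => h (i + 1)) := by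
  cases l with
  | nil => trivial
  | cons a l => exact hl.2

lemma rep_zero : ∀ n : ℕ, Rep (List.replicate n 0) (fun _ => (0 : k))
  | 0 => trivial
  | n + 1 => ⟨by simp, rep_zero n⟩

include p in
lemma loop_sound (F2 : List ℕ) (T : ℕ → ℕ → List ℕ → Bool) (hF : Rep F2 (fun i => gg (1 : k) (i + 2)))
    (hFl : F2.length = p - 2) :
    ∀ (s m : ℕ) (er : List ℕ), 1 ≤ m → er.length = m → Rep er (fun i => (eps (m - 1 - i) : k)) → m < p →
      loop p F2 T s m er = true → ∀ m', m ≤ m' → m' < m + s → m' < p →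
      ∃ (e : ℕ) (er' : List ℕ), er'.length = m' ∧ Rep er' (fun i => (eps (m' - 1 - i) : k)) ∧
        (m' + 1 < p → (e : k) = eps m') ∧ T m' e er' = true
  | 0, m, er, _, _, _, _, _, m', h1, h2, _ => by omega
  | s + 1, m, er, hm, hl, hr, hmp, h, m', h1, h2, h3 => by
    rw [loop, force_eq, Bool.and_eq_true] at h
    set e := Nat.mod (Nat.sub p (Nat.mod (dot er F2) p)) p with he
    have he' : m + 1 < p → (e : k) = eps m := by
      intro hm1
      rw [he, cast_mod]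
      have h4 : Nat.mod (dot er F2) p < p := Nat.mod_lt _ (Fact.out : p.Prime).pos
      have h5 : ((Nat.sub p (Nat.mod (dot er F2) p) : ℕ) : k) = - (dot er F2 : ℕ) := by
        show ((p - Nat.mod (dot er F2) p : ℕ) : k) = _
        rw [Nat.cast_sub h4.le, cast_mod, CharP.cast_eq_zero, zero_sub]
      rw [h5, dot_eq er F2 _ _ hr hF (by omega), hl]
      have h6 := eps_rec (k := k) (p := p) (m + 1) (by omega) hm1
      rw [if_neg (by omega), Finset.sum_range_succ] at h6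
      have h7 : m + 1 - m = 1 := by omega
      have h8 : gg (1 : k) 1 = 1 := by simp [gg]
      rw [h7, h8, mul_one] at h6
      have h9 : ∑ i ∈ range m, (eps (m - 1 - i) : k) * gg 1 (i + 2) =
          ∑ j ∈ range m, (eps j : k) * gg 1 (m + 1 - j) := by
        rw [← Finset.sum_range_reflect]
        refine Finset.sum_congr rfl fun j hj => ?_
        have := mem_range.1 hj
        congr 2
        · omega
        · omega
      rw [h9]
      linear_combination -h6
    rcases Nat.eq_or_lt_of_le h1 with h4 | h4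
    · subst h4
      exact ⟨e, er, hl, hr, he', h.1⟩
    · refine loop_sound F2 T hF hFl s (m + 1) (e :: er) (by omega) (by rw [List.length_cons, hl]) ?_ (by omega)
        h.2 m' h4 (by omega) h3
      refine ⟨?_, ?_⟩
      · rw [he' (by omega)]
        simp
      · refine hr.congr fun i => ?_
        congr 1
        omega

include p in
lemma mkL_sound (x y : ℕ) (hp : 3 ≤ p) (cont : List ℕ → Bool) (h : mkL p x y cont = true) :
    ∃ L : List ℕ, L.length = p - 1 ∧ Rep L (fun i => gg (x : k) (i + 1)) ∧ cont L = true := by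
  unfold mkL at h
  split_ifs at h with h1
  · have hx : x = 0 := Nat.eq_of_beq_eq_true h1
    refine ⟨_, by simp, (rep_zero (p - 1)).congr fun i => ?_, h⟩
    rw [hx]
    simp [gg]
  · rw [Bool.and_eq_true] at h
    have h2 : Nat.mod (Nat.mul x y) p = 1 := Nat.eq_of_beq_eq_true h.1
    have h3 : (x : k) * y = 1 := by
      have h4 := cast_mod (k := k) p (x * y)
      have h5 : Nat.mod (x * y) p = 1 := h2
      rw [h5] at h4
      push_cast at h4
      exact h4.symm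
    obtain ⟨L, h5, h6, h7⟩ := mkG_sound (k := k) p y (x : k) h3 cont (p - 1) (p - 1) [] (by omega)
      (fun c _ => trivial) h.2
    exact ⟨L, by simpa using h5, h6, h7⟩

/-- the lists for the class of `b` and the conductor `3^K` -/
def Good3 (k : Type*) [Field k] (p K b : ℕ) (q : Tri) : Prop :=
  (q.1.length = p - 1 ∧ Rep q.1 (fun i => gg (((b + 3 ^ (K - 1) * 0 : ℕ) : k) / (3 ^ K : ℕ)) (i + 1))) ∧
    (q.2.1.length = p - 1 ∧ Rep q.2.1 (fun i => gg (((b + 3 ^ (K - 1) * 1 : ℕ) : k) / (3 ^ K : ℕ)) (i + 1))) ∧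
    (q.2.2.length = p - 1 ∧ Rep q.2.2 (fun i => gg (((b + 3 ^ (K - 1) * 2 : ℕ) : k) / (3 ^ K : ℕ)) (i + 1)))

/-- the entry for the conductor `3^K` -/
def Good (k : Type*) [Field k] (p K : ℕ) (q : ℕ × Tri × Tri) : Prop :=
  q.1 = 3 ^ K ∧ Good3 k p K 1 q.2.1 ∧ Good3 k p K 4 q.2.2

include p in
lemma mkX_sound (b M N t : ℕ) (hN : (N : k) ≠ 0) (f : ℕ → ℕ → Bool) (h : mkX p b M N t f = true) :
    ∃ x y : ℕ, (x : k) = ((b + M * t : ℕ) : k) / N ∧ f x y = true := by
  unfold mkX at h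
  rw [force_eq, Bool.and_eq_true, force_eq] at h
  refine ⟨_, _, ?_, h.2⟩
  have h1 := Nat.eq_of_beq_eq_true h.1
  rw [eq_div_iff hN]
  have h2 := congrArg (Nat.cast (R := k)) h1
  rw [cast_mod, cast_mod] at h2
  have h3 : ∀ a b : ℕ, ((Nat.mul a b : ℕ) : k) = (a : k) * b := fun a b => Nat.cast_mul a b
  have h4 : ∀ a b : ℕ, ((Nat.add a b : ℕ) : k) = (a : k) + b := fun a b => Nat.cast_add a b
  rw [h3, h4, h3] at h2
  rw [h2]
  push_cast
  ring

include p in
lemma mkT_sound (hp : 5 ≤ p) (b j : ℕ) (cont : Tri → Bool) (h : mkT p b (3 ^ j) (3 ^ (j + 1)) cont = true) :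
    ∃ q : Tri, Good3 k p (j + 1) b q ∧ cont q = true := by
  have hp' := (Fact.out : p.Prime)
  have h3k : ((3 ^ (j + 1) : ℕ) : k) ≠ 0 := by
    intro h0
    have h1 := (CharP.cast_eq_zero_iff k p _).1 h0
    have := Nat.le_of_dvd (by norm_num) (hp'.dvd_of_dvd_pow h1)
    omega
  unfold mkT at h
  obtain ⟨x0, y0, hx0, h⟩ := mkX_sound (k := k) _ _ _ _ h3k _ h
  obtain ⟨G0, hl0, hG0, h⟩ := mkL_sound (k := k) _ _ (by omega) _ h
  obtain ⟨x1, y1, hx1, h⟩ := mkX_sound (k := k) _ _ _ _ h3k _ h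
  obtain ⟨G1, hl1, hG1, h⟩ := mkL_sound (k := k) _ _ (by omega) _ h
  obtain ⟨x2, y2, hx2, h⟩ := mkX_sound (k := k) _ _ _ _ h3k _ h
  obtain ⟨G2, hl2, hG2, h⟩ := mkL_sound (k := k) _ _ (by omega) _ h
  rw [hx0] at hG0
  rw [hx1] at hG1
  rw [hx2] at hG2
  refine ⟨_, ⟨⟨hl0, ?_⟩, ⟨hl1, ?_⟩, ⟨hl2, ?_⟩⟩, h⟩
  · rw [Nat.add_sub_cancel]
    exact hG0
  · rw [Nat.add_sub_cancel]
    exact hG1
  · rw [Nat.add_sub_cancel]
    exact hG2

include p in
lemma mkAll_sound (hp : 5 ≤ p) (cont : List (ℕ × Tri × Tri) → Bool) :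
    ∀ (s j : ℕ) (acc : List (ℕ × Tri × Tri)), 1 ≤ j →
      (∀ K, 2 ≤ K → K ≤ j → ∃ q ∈ acc, Good k p K q) →
      mkAll p cont s (3 ^ j) acc = true →
      ∃ (j' : ℕ) (acc' : List (ℕ × Tri × Tri)), 9 * (p - 1) ≤ 3 ^ (j' + 1) ∧
        (∀ K, 2 ≤ K → K ≤ j' → ∃ q ∈ acc', Good k p K q) ∧ cont acc' = true
  | 0, j, acc, _, hacc, h => by
    rw [mkAll, Bool.and_eq_true] at h
    have h1 := Nat.le_of_ble_eq_true h.1
    refine ⟨j, acc, ?_, hacc, h.2⟩
    rw [pow_succ, mul_comm (3 ^ j)]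
    exact h1
  | s + 1, j, acc, hj, hacc, h => by
    rw [mkAll, force_eq] at h
    have h33 : 3 * 3 ^ j = 3 ^ (j + 1) := by rw [pow_succ, mul_comm]
    rw [h33] at h
    obtain ⟨A, hA, h⟩ := mkT_sound (k := k) hp _ _ _ h
    obtain ⟨B, hB, h⟩ := mkT_sound (k := k) hp _ _ _ h
    refine mkAll_sound hp cont s (j + 1) _ (by omega) ?_ h
    intro K hK1 hK2
    rcases Nat.lt_or_ge j K with h1 | h1
    · have h2 : K = j + 1 := by omega
      subst h2
      exact ⟨_, List.mem_cons_self, rfl, hA, hB⟩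
    · obtain ⟨q, hq, hgood⟩ := hacc K hK1 h1
      exact ⟨q, List.mem_cons_of_mem _ hq, hgood⟩

lemma testA_sound (m : ℕ) (er : List ℕ) : ∀ (Gs : List (ℕ × Tri × Tri)), testA p m er Gs = true →
    ∀ q ∈ Gs, 9 * m ≤ q.1 ∨ bad3 p (dot er q.2.1.1) (dot er q.2.1.2.1) (dot er q.2.1.2.2) = true ∨
      (27 ≤ q.1 ∧ bad3 p (dot er q.2.2.1) (dot er q.2.2.2.1) (dot er q.2.2.2.2) = true)
  | [], _, q, hq => by simp at hq
  | r :: Gs, h, q, hq => by
    rw [testA, Bool.and_eq_true, Bool.or_eq_true, Bool.or_eq_true, Bool.and_eq_true] at h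
    rcases List.mem_cons.1 hq with h1 | h1
    · subst h1
      rcases h.1 with h2 | h2 | h2
      · exact Or.inl (Nat.le_of_ble_eq_true h2)
      · exact Or.inr (Or.inl h2)
      · exact Or.inr (Or.inr ⟨Nat.le_of_ble_eq_true h2.1, h2.2⟩)
    · exact testA_sound m er Gs h.2 q h1

lemma bad3_sound (c0 c1 c2 : ℕ) (h : bad3 p c0 c1 c2 = true) :
    (c0 : k) ^ 2 + c1 ^ 2 + c2 ^ 2 - (c0 * c1 + c1 * c2 + c0 * c2) ≠ 0 := by
  unfold bad3 at h
  rw [force_eq, force_eq, force_eq] at h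
  intro h0
  have h1 := congrArg Bool.not h
  rw [Bool.not_not] at h1
  have h2 := Nat.ne_of_beq_eq_false h1
  apply h2
  have e0 := cast_mod (k := k) p c0
  have e1 := cast_mod (k := k) p c1
  have e2 := cast_mod (k := k) p c2
  have h3 : ∀ a b : ℕ, ((Nat.mul a b : ℕ) : k) = (a : k) * b := fun a b => Nat.cast_mul a b
  have h4 : ∀ a b : ℕ, ((Nat.add a b : ℕ) : k) = (a : k) + b := fun a b => Nat.cast_add a b
  have h5 : ((Nat.add (Nat.add (Nat.mul (Nat.mod c0 p) (Nat.mod c0 p)) (Nat.mul (Nat.mod c1 p) (Nat.mod c1 p)))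
      (Nat.mul (Nat.mod c2 p) (Nat.mod c2 p)) : ℕ) : k) =
      ((Nat.add (Nat.add (Nat.mul (Nat.mod c0 p) (Nat.mod c1 p)) (Nat.mul (Nat.mod c1 p) (Nat.mod c2 p)))
      (Nat.mul (Nat.mod c0 p) (Nat.mod c2 p)) : ℕ) : k) := by
    rw [h4, h4, h3, h3, h3, h4, h4, h3, h3, h3, e0, e1, e2]
    linear_combination h0
  exact (CharP.natCast_eq_natCast k p).1 h5

include p in
/-- the scalar products are the values of the Bernoulli polynomials -/
lemma dot_FF (m : ℕ) (hm : m < p) (er G : List ℕ) (x : k) (her : er.length = m)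
    (hr : Rep er (fun i => (eps (m - 1 - i) : k))) (hG : Rep G (fun i => gg x (i + 1))) (hGl : G.length = p - 1) :
    aeval x (FF m) = (m.factorial : k) ^ 2 * (dot er G : ℕ) := by
  rw [aeval_FF (p := p) m hm, dot_eq er G _ _ hr hG (by omega), her]
  congr 1
  rw [← Finset.sum_range_reflect]
  refine Finset.sum_congr rfl fun j hj => ?_
  have := mem_range.1 hj
  congr 2
  omega

end

end Pool.Agent.Q22.GX
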